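import Pool.Agent.Helper11.MT7.Main
import Pool.Agent.Helper21.MT8.Stmts

/-!
# The main theorem for Jordan types with purity (MAIN8)
The argument of MAIN7 (helper11) with the hypothesis `Amp8`.
-/

set_option autoImplicit false

open NumberField MU

namespace MT

/-- MAIN8 -/
theorem st_MAIN8 (irr8 : ST_IRR8) (ful8 : ST_FUL8) (zar : ST_ZAR) (ten : ST_TEN)
    (sim : ST_SIM) (sim7 : ST_SIM7) (ism : ST_ISM) (hdg7 : ST_HDG7) (g07 : ST_G07)
    (idx : ST_IDX) (fre : ST_FRE) (hcyc : ST_CYC) : ST_MAIN8 := by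
  intro F _ _ S hS n w h M l _
  refine ⟨irr8 F S hS n w h M l, ?_⟩
  intro hM hw hn hrefl K _ _
  haveI : CharZero K := charZero_of_injective_algebraMap (algebraMap ℚ_[l] K).injective
  obtain ⟨p₀, -, -, hp₀, hl, -⟩ := hM.1
  have hM' := hM
  obtain ⟨ten1, ten2⟩ := ten
  have hZC : ∀ H : Subgroup (Gal F), IsOpen (H : Set (Gal F)) →
      SimC w M.ψ K ⊆ ZC (M.ρ l '' H) K ∧ ZC (M.ρ l '' H) K ⊆ Sim M.ψ K := by
    intro H hH
    obtain ⟨H₁, hle, hnor, hopen, e, he, hHe⟩ := exists_core H hH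
    constructor
    · refine (M.toPMot.simC_le hw zar sim sim7 ism idx fre hcyc l p₀ hp₀ hl H e he
        (fun g => hle (hHe g)) (ful8 F S hS n w h M l hn hM' hrefl H hH) K).trans ?_
      intro g hg f hf
      refine hg f ?_
      rintro _ ⟨s, hs, rfl⟩
      exact hf _ ⟨s, hs, rfl⟩
    · intro g hg
      rw [ten2 K n M.ψ M.ψ_det]
      refine ten1 ℚ_[l] n 2 2 (M.ρ l '' H) (polTen M.ψ) ?_ K g hg
      rintro _ ⟨s, -, rfl⟩
      exact (ten2 ℚ_[l] n M.ψ M.ψ_det _).mp (M.toPMot.mem_Sim l s)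
  have htop : IsOpen ((⊤ : Subgroup (Gal F)) : Set (Gal F)) := by
    rw [Subgroup.coe_top]
    exact isOpen_univ
  have hGlZ : ZC (M.ρ l '' ((⊤ : Subgroup (Gal F)) : Set (Gal F))) K = M.Gl l K := by
    rw [Subgroup.coe_top, Set.image_univ]
    rfl
  have hGlC : SimC w M.ψ K ⊆ M.Gl l K := by
    rw [← hGlZ]; exact (hZC ⊤ htop).1
  have hGlS : M.Gl l K ⊆ Sim M.ψ K := by
    rw [← hGlZ]; exact (hZC ⊤ htop).2
  have hSimGl : Sim M.ψ K ⊆ M.Gl l K := by
    intro y hy
    obtain ⟨c, hc⟩ := hy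
    by_cases hcase : Even w ∧ Even n
    swap
    · exact hGlC ⟨c, hc, fun h1 h2 => absurd ⟨h1, h2⟩ hcase⟩
    obtain ⟨hev, hen⟩ := hcase
    obtain ⟨m, hm⟩ := hen
    have hnm : n / 2 = m := by omega
    have hdetK := bas_det K M.ψ M.ψ_det
    -- the determinant up to sign
    have hd : (y : Matrix (Fin n) (Fin n) K).det ^ 2 = (c ^ m) ^ 2 := by
      have h1 := congrArg Matrix.det hc
      rw [Matrix.det_mul, Matrix.det_mul, Matrix.det_transpose, Matrix.det_smul,
        Fintype.card_fin] at h1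
      have h2 : ((y : Matrix (Fin n) (Fin n) K).det ^ 2 - (c ^ m) ^ 2) * (bas K M.ψ).det = 0 := by
        rw [← pow_mul, mul_comm m 2, two_mul, ← hm]
        linear_combination h1
      rcases mul_eq_zero.mp h2 with h3 | h3
      · exact sub_eq_zero.mp h3
      · exact absurd h3 hdetK
    rcases sq_eq_sq_iff_eq_or_eq_neg.mp hd with h1 | h1
    · exact hGlC ⟨c, hc, fun _ _ => by rw [hnm]; exact h1⟩
    -- multiply by the reflection
    obtain ⟨g, hg⟩ := hrefl
    have hgs := M.toPMot.gal_sim l g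
    have hdetl := bas_det ℚ_[l] M.ψ M.ψ_det
    have hone := Ps7.mult_one hn hdetl hgs hg
    rw [hone, one_smul] at hgs
    have hsym : (bas ℚ_[l] M.ψ).transpose = bas ℚ_[l] M.ψ := by
      rcases bas_sym' ℚ_[l] M.ψ w M.ψ_sym with ⟨h2, -⟩ | ⟨-, h2⟩
      · exact absurd hev (Nat.not_even_iff_odd.mpr h2)
      · exact h2
    obtain ⟨hrdet, hrsq⟩ := Ps7.refl_facts hsym hdetl hgs hg
    set r : Matrix.GeneralLinearGroup (Fin n) K :=
      Matrix.GeneralLinearGroup.map (algebraMap ℚ_[l] K) (M.ρ l g) with hr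
    have hrm : (r : Matrix (Fin n) (Fin n) K) =
        (mat (M.ρ l) g).map (algebraMap ℚ_[l] K) := rfl
    have hrGl : r ∈ M.Gl l K := by
      intro f hf
      have h2 := hf (M.ρ l g) ⟨g, rfl⟩
      have h3 := ev_map (algebraMap ℚ_[l] K) (fun _ => rfl)
        ((M.ρ l g : Matrix.GeneralLinearGroup (Fin n) ℚ_[l]) : Matrix (Fin n) (Fin n) ℚ_[l]) f
      rw [h2, map_zero] at h3
      exact h3.symm
    have hr2 : r * r = 1 := by
      apply Units.ext
      rw [Units.val_mul, hrm, ← Matrix.map_mul, hrsq, Matrix.map_one _ (map_zero _) (map_one _),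
        Units.val_one]
    have hrpsi : (r : Matrix (Fin n) (Fin n) K).transpose * bas K M.ψ *
        (r : Matrix (Fin n) (Fin n) K) = bas K M.ψ := by
      have h2 := congrArg (fun X => X.map (algebraMap ℚ_[l] K)) hgs
      simp only [Matrix.map_mul, bas_map] at h2
      rw [hrm, ← Matrix.transpose_map]
      exact h2
    have hrd : (r : Matrix (Fin n) (Fin n) K).det = -1 := by
      have h2 : (r : Matrix (Fin n) (Fin n) K).det =
          algebraMap ℚ_[l] K (mat (M.ρ l) g).det := by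
        rw [hrm, RingHom.map_det]
        rfl
      rw [h2, hrdet, map_neg, map_one]
    have hyr : y * r ∈ M.Gl l K := by
      apply hGlC
      refine ⟨c, ?_, fun _ _ => ?_⟩
      · rw [Units.val_mul, Matrix.transpose_mul]
        calc (r : Matrix (Fin n) (Fin n) K).transpose * (y : Matrix (Fin n) (Fin n) K).transpose *
              bas K M.ψ * ((y : Matrix (Fin n) (Fin n) K) * (r : Matrix (Fin n) (Fin n) K))
            = (r : Matrix (Fin n) (Fin n) K).transpose *
              ((y : Matrix (Fin n) (Fin n) K).transpose * bas K M.ψ *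
                (y : Matrix (Fin n) (Fin n) K)) * (r : Matrix (Fin n) (Fin n) K) := by
              simp only [Matrix.mul_assoc]
          _ = c • bas K M.ψ := by
              rw [hc, Matrix.mul_smul, Matrix.smul_mul, hrpsi]
      · rw [Units.val_mul, Matrix.det_mul, h1, hrd, hnm]
        ring
    have hfin : y * r * r ∈ M.Gl l K := by
      obtain ⟨-, -, -, -, zmul⟩ := zar ℚ_[l] n (M.ρ l).range
      have h2 : ((M.ρ l).range : Set (Matrix.GeneralLinearGroup (Fin n) ℚ_[l])) =
          Set.range (M.ρ l) := MonoidHom.coe_range _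
      have h3 := zmul K (y * r) (by rw [h2]; exact hyr) r (by rw [h2]; exact hrGl)
      rw [h2] at h3
      exact h3
    rwa [mul_assoc, hr2, mul_one] at hfin
  have hGl : M.Gl l K = Sim M.ψ K := Set.Subset.antisymm hGlS hSimGl
  have hGmot : M.Gmot K = Sim M.ψ K := by
    apply Set.Subset.antisymm
    · intro g hg
      rw [ten2 K n M.ψ M.ψ_det]
      exact hg 2 2 _ M.mot_pol
    · intro g hg a b t ht
      rw [← hGl] at hg
      refine ten1 ℚ_[l] n a b (Set.range (M.ρ l)) t ?_ K g hg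
      rintro _ ⟨s, rfl⟩
      exact M.mot_gal a b t ht l s
  have hGl0 : M.Gl0 l K = SimC w M.ψ K := by
    apply Set.Subset.antisymm
    · exact g07 F S n w h M.toPMot l K (by omega)
    · intro g hg H hH
      exact (hZC H hH).1 hg
  have hsub : M.Gsigma K ⊆ M.Gl0 l K := by
    rw [hGl0]
    exact hdg7 F S n w h M.toPMot K (by omega)
  refine ⟨hZC, by rw [hGl, hGmot], hGmot, hGl0, hsub, ?_⟩
  intro hyp
  refine Set.Subset.antisymm ?_ hsub
  intro g hg a b t ht
  obtain ⟨H, hH, hfix⟩ := hyp a b t ht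
  refine ten1 ℚ_[l] n a b (M.ρ l '' H) t ?_ K g (hg H hH)
  rintro _ ⟨s, hs, rfl⟩
  exact hfix s hs

end MT
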