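import Pool.Agent.Helper26.MU.PRO
import Pool.Agent.Helper21.MT8.Stmts

/-! PRO8: products of constant coefficients of factors, characteristic zero, variable degrees. -/

set_option autoImplicit false
set_option maxHeartbeats 800000

open Polynomial

namespace MT

theorem pro8_inj (L : Type) [Field L] [CharZero L] (Z : Type) [CommRing Z] [IsDomain Z]
    [Algebra.IsIntegral ℤ Z] (ψ : Z →+* L) : Function.Injective ψ := by
  rw [injective_iff_map_eq_zero]
  intro z hz
  by_contra hne
  have hcomap := Ideal.comap_ne_bot_of_integral_mem (R := ℤ) (I := Ideal.span {z})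
    hne (Ideal.mem_span_singleton_self _) (Algebra.IsIntegral.isIntegral (R := ℤ) _)
  obtain ⟨D, hD, hDne⟩ := Submodule.exists_mem_ne_zero_of_ne_bot hcomap
  obtain ⟨e, he⟩ := Ideal.mem_span_singleton.mp (Ideal.mem_comap.mp hD)
  have h1 : ψ (algebraMap ℤ Z D) = 0 := by rw [he, map_mul, hz, zero_mul]
  have h2 : ψ (algebraMap ℤ Z D) = (D : L) := by simp
  rw [h2] at h1
  exact hDne (by exact_mod_cast h1)

theorem st_PRO8 : ST_PRO8 := by
  classical
  intro K _ _ ι _ m R P Q N₁ N₂ hmon hroot hQ hprod
  set Z := integralClosure ℤ ℂ with hZ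
  choose a ha using fun i => MU.pro_split (P i) (hmon i)
  -- the roots
  have hR : ∀ i (j : Fin (P i).natDegree), ‖((a i j : Z) : ℂ)‖ ^ 2 = R i := by
    intro i j
    apply hroot i
    have h1 : (P i).map (Int.castRingHom ℂ) =
        ((P i).map (algebraMap ℤ Z)).map (algebraMap Z ℂ) := by
      rw [Polynomial.map_map, ← IsScalarTower.algebraMap_eq]; rfl
    rw [h1, ha i, IsRoot, Polynomial.map_prod, eval_prod]
    apply Finset.prod_eq_zero (Finset.mem_univ j)
    simp
  let L := AlgebraicClosure K
  obtain ⟨ψ⟩ := MU.pro_hom L Z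
  have hLc : CharZero L := charZero_of_injective_algebraMap (algebraMap K L).injective
  have hinj : Function.Injective ψ := pro8_inj L Z ψ
  have hmap : ∀ i, ((Q i).map (algebraMap K L)) ∣ ∏ j, (X - C (ψ (a i j))) := by
    intro i
    have h1 := Polynomial.map_dvd (algebraMap K L) (hQ i).2.2
    have h2 : ((P i).map (Int.castRingHom K)).map (algebraMap K L) =
        ((P i).map (algebraMap ℤ Z)).map ψ := by
      rw [Polynomial.map_map, Polynomial.map_map]
      congr 1
      exact RingHom.ext_int _ _
    rw [h2, ha i, Polynomial.map_prod] at h1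
    simpa using h1
  have hJ : ∀ i, ∃ J : Finset (Fin (P i).natDegree), J.card = m i ∧
      (-1) ^ (m i) * ((Q i).map (algebraMap K L)).coeff 0 = ∏ j ∈ J, ψ (a i j) := by
    intro i
    exact MU.pro_div L _ (m i) (fun j => ψ (a i j)) _ ((hQ i).1.map _)
      (by rw [(hQ i).1.natDegree_map, (hQ i).2.1]) (hmap i)
  choose J hJc hJp using hJ
  have h0 : (N₁ : Z) * ∏ i, ∏ j ∈ J i, a i j = (N₂ : Z) := by
    apply hinj
    have h1 := congrArg (algebraMap K L) hprod
    rw [map_mul, map_prod, map_natCast, map_natCast] at h1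
    have h2 : ∀ i, algebraMap K L ((-1) ^ (m i) * (Q i).coeff 0) = ∏ j ∈ J i, ψ (a i j) := by
      intro i
      rw [← hJp i, map_mul, map_pow, map_neg, map_one, coeff_map]
    simp only [h2] at h1
    rw [map_mul, map_prod, map_natCast, map_natCast]
    simp only [map_prod]
    exact h1
  have h2 : (N₁ : ℂ) * ∏ i, ∏ j ∈ J i, ((a i j : Z) : ℂ) = (N₂ : ℂ) := by
    have := congrArg (algebraMap Z ℂ) h0
    rw [map_mul, map_prod, map_natCast, map_natCast] at this
    simp only [map_prod] at this
    exact this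
  have h3 := congrArg (fun z : ℂ => ‖z‖ ^ 2) h2
  simp only [norm_mul, norm_prod, mul_pow, ← Finset.prod_pow, hR] at h3
  rw [Complex.norm_natCast, Complex.norm_natCast] at h3
  rw [← h3]
  congr 1
  apply Finset.prod_congr rfl
  intro i _
  rw [Finset.prod_const, hJc i]

end MT
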